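import Mathlib
import Pool.Agent.Work.MP_c04246_lc.TTaut

set_option autoImplicit false

namespace Pool.Agent.Results.MP_c04246_lc.CopyGates

open Pool.Agent.Work.MP_c04246_lc

/-- Exponential lower bounds for dag-like proofs of multiple counting tautologies
`foldTaut q P n M` whose lines are constant-depth combinations of gates (with arbitrary Boolean
functions, such as counting modulo a divisor `r` of `P`). The number, the scope, the fan-in and the
nesting of the gates are not restricted; but each gate has to be blind to `P` random copies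
of `S`, for all but a fraction `1 / w ^ a` of the sets `S` and of the random choices. -/
theorem result (q : ℕ) (hq : 2 ≤ q) (P : ℕ) (hP : 1 ≤ P) (d : ℕ) :
    ∃ a n0 : ℕ, ∀ n ≥ n0, ¬ q ∣ P * n → ∀ M : ℕ, 1 ≤ M →
      (∀ v, GF.eval v (GF.foldTaut q P n M) = true) ∧ GF.cdepth 0 (GF.foldTaut q P n M) ≤ 4 ∧
      GF.size (GF.foldTaut q P n M) ≤ 20 * (P + 1) * (n ^ (q + 1) * M) ^ (P + 1) ∧
      ∀ w : ℕ, w ^ a ≤ n → ∀ m : ℕ, m * w ^ a ≤ n.choose q →
        ∀ pi : List (GF ({S : Finset (Fin n) // S.card = q} × Fin M)),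
          GF.IsProof w pi → GF.foldTaut q P n M ∈ pi →
          (∀ b ∈ pi, ∀ A ∈ GF.subs b, GF.cdepth m A ≤ d) →
          ∀ L : ℕ, 1 ≤ L → ∀ J : {S : Finset (Fin n) // S.card = q} → Fin L → Finset (Fin M),
            (∀ S i, (J S i).card = P) →
            (∀ b ∈ pi, ∀ A ∈ GF.subs b, (∃ k g f, A = GF.gate k g f) →
              {x : {S : Finset (Fin n) // S.card = q} × Fin L |
                ¬ GF.Blind x.1 (J x.1 x.2) A}.ncard * w ^ a ≤ L * n.choose q) →
            2 ^ w ≤ (pi.map GF.size).sum := by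
  obtain ⟨a, n0, hn0, h⟩ := GF.fold_bound q hq P hP d
  exact ⟨a, n0, fun n hn hqn M hM => ⟨GF.taut_foldTaut hqn, GF.cdepth_foldTaut 0,
    GF.size_foldTaut (hn0.trans hn) (by omega) hM, fun w hw m hm pi => h n hn w hw m hm M pi⟩⟩

end Pool.Agent.Results.MP_c04246_lc.CopyGates
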