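import Mathlib
import Pool.Agent.Work.MP_c04246_lc.Y.MainN

set_option autoImplicit false

namespace Pool.Agent.Results.MP_c04246_lc.SymmetricGates

open Pool.Agent.Work.MP_c04246_lc

/-- Exponential lower bounds for dag-like proofs of the counting tautologies `Count_q^n` with
`MOD_{p,i}` connectives, `p` coprime to `q`. The lines have constant depth above their
MOD-subformulas; the number, the fan-in, the depth and the nesting of the MOD-subformulas are not
restricted, but each of them has at most `2 ^ (|C| / w ^ a)` images (up to the order of the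
arguments of the connectives) under the permutations of a set `C` of points. Inferences may use the
truth tables of `w` subformulas and the sum rule. -/
theorem result (p q : ℕ) (hp : 0 < p) (hq : 2 ≤ q) (hpq : p.Coprime q) (d : ℕ) :
    ∃ a n0 : ℕ, ∀ n : ℕ, ¬ q ∣ n →
      (∀ v, NF.eval v (NF.countNF p q n) = true) ∧ NF.depth (NF.countNF p q n) ≤ 3 ∧
      NF.size (NF.countNF p q n) ≤ 8 * n ^ (2 * q) ∧
      ∀ C : Finset (Fin n), n0 ≤ C.card → ∀ w : ℕ, w ^ a ≤ C.card →
        ∀ pi : List (NF p {S : Finset (Fin n) // S.card = q}),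
          NF.IsProof w (NF.FewImages C (2 ^ (C.card / w ^ a))) pi → NF.countNF p q n ∈ pi →
          (∀ b ∈ pi, NF.depth b ≤ d) →
          (∀ b ∈ pi, ∀ A ∈ NF.subs b, NF.IsMod A → NF.FewImages C (2 ^ (C.card / w ^ a)) A) →
          2 ^ w ≤ (pi.map NF.size).sum := by
  obtain ⟨a, n0, h⟩ := NF.main_bound p q hp hq hpq d
  refine ⟨a, n0, fun n hn => ⟨fun v => NF.taut_countNF hn v, NF.depth_countNF,
    NF.size_countNF hq ?_, fun C hC w hw pi => h n hn C hC w hw pi⟩⟩
  rcases Nat.eq_zero_or_pos n with h0 | h0
  · subst h0; exact absurd (dvd_zero q) hn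
  · exact h0

end Pool.Agent.Results.MP_c04246_lc.SymmetricGates
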