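import Mathlib
import Pool.Agent.Work.MP_c04246_lc.G.Fi2

set_option autoImplicit false

namespace Pool.Agent.Work.MP_c04246_lc.Old.UnrestrictedTradeoff

open Filter Topology
open Pool.Agent.Work.MP_c04246_lc

/-- Random `k`-CNFs with `n` variables and `Δ n` clauses: every refutation, and every proof of the
negation, whose lines are arbitrary formulas with counting connectives modulo `p` of depth at most
`d` with at most `a` nested conjunctions and disjunctions, has many distinct arguments of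
conjunctions and disjunctions, or exponentially many distinct subformulas. -/
theorem result (k Δ : ℕ) (hk : 3 ≤ k) :
    ∃ G : (n : ℕ) → Finset (Fin (Δ * n) → Fin k → Fin n × Bool),
      Tendsto (fun n : ℕ => ((G n).card : ℝ) /
        Fintype.card (Fin (Δ * n) → Fin k → Fin n × Bool)) atTop (𝓝 1) ∧
      (2 ^ k ≤ Δ → ∀ n, ∀ F ∈ G n, ∀ v : Fin n → Bool, ∃ i, ∀ j, v (F i j).1 ≠ (F i j).2) ∧
      ∀ p : ℕ, p.Prime → ∀ K d a : ℕ, ∃ C n0 : ℕ, ∀ n ≥ n0, ∀ F ∈ G n,
        ∀ pi : List (Fml p (Fin n)), Fml.IsDer K (Set.range fun i => Fml.clauseF (F i)) pi →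
          (Fml.dnfF F ∈ pi ∨ Fml.cst false ∈ pi) →
          (∀ b ∈ pi, Fml.depth b ≤ d ∧ Fml.blk none b ≤ a) →
          n ^ 2 ^ a ≤ C * ((Fml.inputs pi).card ^ (2 ^ a - 1) *
            (Nat.log 2 (Fml.inner pi).card + 1) ^ (2 ^ a - 2) *
            (Nat.log 2 (Fml.subsL pi).card + 1)) :=
  R.main_T k Δ hk

end Pool.Agent.Work.MP_c04246_lc.Old.UnrestrictedTradeoff
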